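import Pool.Agent.Run7.h386.DL.MainD

/-!
# Sums of dense subsets of finite sets of positive integers closed under gcd and lcm

Let `L₁, …, L_k` be finite sets of positive integers, each closed under gcd and lcm, let `A_i ⊆ L_i` be
nonempty, let `l₁, …, l_k` be nonzero integers and let `B` be a finite nonempty set of integers. Then
`|l₁ A₁ + … + l_k A_k + B| ≥ c |B| ^ (1 - ε) ∏ |L_i| ^ (1 - ε) (|A_i| / |L_i|) ^ C`, where `C` and
`c > 0` depend only on `k` and `ε`. With `A_i = A`, `l_i = 1`, `B = {0}`: `|kA| ≥ c |A| ^ (k - ε)` for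
all subsets `A` of `L` with `|A| ≥ |L| ^ (1 - η)`, `η = η(k, ε) > 0`. So the bound of the `k`-fold
Erdős–Szemerédi conjecture holds for all sets which have a power-density close to `1` in some set
closed under gcd and lcm (in particular in the set of the divisors of some integer).

The proof. (1) An energy theorem. Let `P` be a finite set of pairwise coprime integers `≥ 2` and let
`X`, `B` be finite sets of integers with `θ log (|X| |B|) ≤ |P|`. For a small `α = α(δ, θ) > 0` the mean
over the subsets `s` of `P` of `∑ r_s(z) ^ (1 + α)`, where `r_s(z)` is the number of the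
representations `z = (∏ s) x + b`, is at most `C (|X| |B|) ^ (1 + α δ)`. (2) A finite set `L` closed
under gcd and lcm is a distributive lattice, its members correspond to the down-closed subsets `I` of
the set `J` of the proper nonempty sets of the multiples in `L` of prime powers. If `|J| ≤ C₁ log |L|`
then for a subset `T` of `J` of small density the members of `L` are arranged according to the set `M`
of the isolated undecided elements of `T`; the members with a given `M` are a set of the form
`X · {∏ s : s ⊆ P}` with `|P| = |M|`, and a random `T` gives `|M| ≥ c log |L|` for a positive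
proportion of all `I` outside of an exceptional set of `|L| ^ (1 - c)` members, which is bounded with
a greedy choice of few elements of `J` whose lower covers they almost contain. With (1) and Hölder's
inequality this gives the bound for the subsets of `L`. (3) In general, `L` has at most `log_2 |L|`
coordinates (Dilworth), which are exposed one by one or restricted to boundedly many values.
-/

set_option autoImplicit false

open scoped Pointwise

namespace Pool.Agent.Results.MP_120218_co.DenseGcdLcm

/-- `|l₁ A₁ + … + l_k A_k + B| ≥ c |B| ^ (1 - ε) ∏ |L_i| ^ (1 - ε) (|A_i| / |L_i|) ^ C` for all finite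
sets `L_i` of positive integers which are closed under gcd and lcm, all nonempty `A_i ⊆ L_i`, all
nonzero integers `l_i` and all finite nonempty sets `B` of integers, where `C` and `c > 0` depend only
on `k` and `ε`. -/
theorem result (k : ℕ) (ε : ℝ) (hε : 0 < ε) :
    ∃ C c : ℝ, 0 < C ∧ 0 < c ∧
      ∀ (L A : Fin k → Finset ℕ) (l : Fin k → ℤ) (B : Finset ℤ),
        (∀ i, 0 ∉ L i) →
        (∀ i, ∀ a ∈ L i, ∀ b ∈ L i, Nat.gcd a b ∈ L i ∧ Nat.lcm a b ∈ L i) →
        (∀ i, A i ⊆ L i) → (∀ i, (A i).Nonempty) → (∀ i, l i ≠ 0) → B.Nonempty →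
        c * (B.card : ℝ) ^ (1 - ε) *
            ∏ i, ((L i).card : ℝ) ^ (1 - ε) * (((A i).card : ℝ) / (L i).card) ^ C ≤
          ((((Fintype.piFinset A).image fun f => ∑ i, l i * (f i : ℤ)) + B).card : ℝ) := by
  obtain ⟨C, c, hC, hc, h⟩ := Pool.Agent.Run7.h386.DL.kfoldD 0 le_rfl k (min ε 1)
    (lt_min hε one_pos) (min_le_right _ _)
  refine ⟨C, c, hC, hc, ?_⟩
  intro L A l B h0 hcl hA hne hl hB
  have hLne : ∀ i, (L i).Nonempty := fun i => (hne i).mono (hA i)
  have h1 := h (fun i => Pool.Agent.Run7.h386.GL.ic (A i)) (fun i => ((L i).card : ℝ)) l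
    (fun i => ⟨Pool.Agent.Run7.h386.GL.ic_nonempty (hne i), Or.inl ⟨L i, A i,
      ⟨fun a ha h => h0 i (h ▸ ha), fun a ha b hb => (hcl i a ha b hb).1,
        fun a ha b hb => (hcl i a ha b hb).2⟩, hA i, rfl, rfl⟩⟩) hl B hB
  simp only [Pool.Agent.Run7.h386.GL.ic_card] at h1
  have hset : Pool.Agent.Run7.h386.DL.smz k (fun i => Pool.Agent.Run7.h386.GL.ic (A i)) l =
      (Fintype.piFinset A).image fun f => ∑ i, l i * (f i : ℤ) := by
    ext z
    unfold Pool.Agent.Run7.h386.DL.smz
    simp only [Finset.mem_image, Fintype.mem_piFinset]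
    constructor
    · rintro ⟨f, hf, rfl⟩
      choose g hg1 hg2 using fun i => Finset.mem_image.1 (hf i)
      exact ⟨g, hg1, Finset.sum_congr rfl fun i _ => by rw [hg2 i]⟩
    · rintro ⟨g, hg, rfl⟩
      exact ⟨fun i => (g i : ℤ), fun i => Finset.mem_image_of_mem _ (hg i), rfl⟩
  rw [hset] at h1
  refine le_trans ?_ h1
  have hB1 : (1 : ℝ) ≤ (B.card : ℝ) := by exact_mod_cast hB.card_pos
  have hε' : 1 - ε ≤ 1 - min ε 1 := by linarith [min_le_left ε 1]
  have h2 : (B.card : ℝ) ^ (1 - ε) ≤ (B.card : ℝ) ^ (1 - min ε 1) :=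
    Real.rpow_le_rpow_of_exponent_le hB1 hε'
  have h3 : ∏ i, ((L i).card : ℝ) ^ (1 - ε) * (((A i).card : ℝ) / (L i).card) ^ C ≤
      ∏ i, ((L i).card : ℝ) ^ (1 - min ε 1) * (((A i).card : ℝ) / (L i).card) ^ C := by
    refine Finset.prod_le_prod (fun i _ => by positivity) fun i _ => ?_
    refine mul_le_mul_of_nonneg_right ?_ (by positivity)
    exact Real.rpow_le_rpow_of_exponent_le (by exact_mod_cast (hLne i).card_pos) hε'
  calc c * (B.card : ℝ) ^ (1 - ε) *
        ∏ i, ((L i).card : ℝ) ^ (1 - ε) * (((A i).card : ℝ) / (L i).card) ^ C ≤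
      c * (B.card : ℝ) ^ (1 - min ε 1) *
        ∏ i, ((L i).card : ℝ) ^ (1 - min ε 1) * (((A i).card : ℝ) / (L i).card) ^ C := by
        refine mul_le_mul (mul_le_mul_of_nonneg_left h2 hc.le) h3 ?_ (by positivity)
        exact Finset.prod_nonneg fun i _ => by positivity
    _ = _ := by ring

end Pool.Agent.Results.MP_120218_co.DenseGcdLcm
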