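import Mathlib
import Pool.Agent.Run7.h84.MG.Fin

/-!
# The Erdős–Szemerédi conjecture for integers of bounded height modulo a multiplicative group

Let `Γ` be the multiplicative group generated by `r` positive rational numbers, where
`r ≤ δ log N / log log N`.

1. Let `A` be a set of at most `N` integers of the form `± g n`, `g ∈ Γ`, `n ∈ ℕ`, where `n` has at
   most `N ^ δ` divisors and `(v + 1) ^ r ≤ N ^ δ` for all exponents `v` in the prime factorization
   of `n`. Then `A` is the disjoint union of two sets `S` and `T` such that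
   `|kS + B| ≥ c |S| ^ k |B| ^ (1 - ε) / N ^ ε` for every finite nonempty set `B` and every integer has
   at most `N ^ ε / c` representations as a product of `k` elements of `T`.
   If a set `A` of at least `N` integers contains at least `N ^ (1 - δ)` integers of this form then
   `|A ^ k| ≥ c N ^ (k - ε)` or `|kA + B| ≥ c N ^ (k - ε) |B| ^ (1 - ε)` for every `B`.
2. The last statement for the integers of the form `± g b m` where `g ∈ Γ`, `1 ≤ b ≤ N ^ C` and `m`
   has at most `δ log N` prime factors, counted with multiplicity.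

Proof: `S` consists of the elements `a` for which `A ∩ a Γ` has at least `M ^ r` elements,
`M = O(log N)`. The starting library `W219.SP` says that the iterated sumsets of such a set are almost
as large as possible. For the other elements fix the product `u` of `k` of them. The product `n` of
the `k` cofactors lies in a coset of `Γ`, and in such a coset there are at most `(L + 1) ^ r` natural
numbers whose exponents are at most `L`; for given `n` there are few possibilities for the cofactors,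
because the number of divisors is submultiplicative, and the cofactors determine the elements up to
`2 M ^ r` possibilities each.
-/

set_option autoImplicit false

open scoped Pointwise

namespace Pool.Agent.Results.MP_120218_co.HeightModuloGroup

open Pool.Agent.Run7.h84.MG

open Classical in
theorem result :
    (∀ k : ℕ, 1 ≤ k → ∀ ε : ℝ, 0 < ε → ∃ δ c : ℝ, 0 < δ ∧ 0 < c ∧
      ∀ (N r : ℕ) (t : Fin r → ℚ), 1 ≤ N → (∀ i, 0 < t i) →
      (r : ℝ) * Real.log (Real.log N) ≤ δ * Real.log N →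
      (∀ A : Finset ℤ, A.card ≤ N → (∀ a ∈ A, Thin t N δ a) →
        ∃ S T : Finset ℤ, S ∪ T = A ∧ Disjoint S T ∧
          (∀ B : Finset ℤ, B.Nonempty →
            c * ((S.card : ℝ) ^ k * (B.card : ℝ) ^ (1 - ε)) ≤ (N : ℝ) ^ ε *
              ((((Fintype.piFinset fun _ : Fin k => S).image fun f => ∑ i, f i) + B).card : ℝ)) ∧
          ∀ u : ℤ, c * (((Fintype.piFinset fun _ : Fin k => T).filter
            fun f => ∏ i, f i = u).card : ℝ) ≤ (N : ℝ) ^ ε) ∧
      (∀ A : Finset ℤ, N ≤ A.card → (N : ℝ) ^ (1 - δ) ≤ (A.filter fun a => Thin t N δ a).card →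
        c * (N : ℝ) ^ ((k : ℝ) - ε) ≤
          (((Fintype.piFinset fun _ : Fin k => A).image fun f => ∏ i, f i).card : ℝ) ∨
        ∀ B : Finset ℤ, B.Nonempty →
          c * ((N : ℝ) ^ ((k : ℝ) - ε) * (B.card : ℝ) ^ (1 - ε)) ≤
          ((((Fintype.piFinset fun _ : Fin k => A).image fun f => ∑ i, f i) + B).card : ℝ))) ∧
    (∀ k : ℕ, 1 ≤ k → ∀ ε : ℝ, 0 < ε → ∀ C : ℝ, 0 ≤ C → ∃ δ c : ℝ, 0 < δ ∧ 0 < c ∧
      ∀ (N r : ℕ) (t : Fin r → ℚ), 1 ≤ N → (∀ i, 0 < t i) →
      (r : ℝ) * Real.log (Real.log N) ≤ δ * Real.log N →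
      ∀ A : Finset ℤ, N ≤ A.card →
      (N : ℝ) ^ (1 - δ) ≤ (A.filter fun a : ℤ => ∃ (e : Fin r → ℤ) (b m : ℕ), b ≠ 0 ∧ m ≠ 0 ∧
        (b : ℝ) ≤ (N : ℝ) ^ C ∧ (ArithmeticFunction.cardFactors m : ℝ) ≤ δ * Real.log N ∧
        |(a : ℚ)| = (∏ i, t i ^ e i) * (b * m)).card →
      c * (N : ℝ) ^ ((k : ℝ) - ε) ≤
        (((Fintype.piFinset fun _ : Fin k => A).image fun f => ∏ i, f i).card : ℝ) ∨
      ∀ B : Finset ℤ, B.Nonempty →
        c * ((N : ℝ) ^ ((k : ℝ) - ε) * (B.card : ℝ) ^ (1 - ε)) ≤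
        ((((Fintype.piFinset fun _ : Fin k => A).image fun f => ∑ i, f i) + B).card : ℝ)) := by
  have small : ∀ (k : ℕ) (ε : ℝ) (N₀ N : ℕ) (A : Finset ℤ), 0 < ε → 1 ≤ N → N ≤ N₀ →
      N ≤ A.card → ((1 : ℝ) / N₀) ^ k * (N : ℝ) ^ ((k : ℝ) - ε) ≤
        (((Fintype.piFinset fun _ : Fin k => A).image fun f => ∏ i, f i).card : ℝ) := by
    intro k ε N₀ N A hε hN hNN hA
    have h1 : (1 : ℝ) ≤ N := by exact_mod_cast hN
    have h2 : (N : ℝ) ≤ N₀ := by exact_mod_cast hNN
    have h3 : (N : ℝ) ^ ((k : ℝ) - ε) ≤ (N₀ : ℝ) ^ k := by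
      calc (N : ℝ) ^ ((k : ℝ) - ε) ≤ (N : ℝ) ^ (k : ℝ) :=
            Real.rpow_le_rpow_of_exponent_le h1 (by linarith)
        _ = (N : ℝ) ^ k := Real.rpow_natCast _ _
        _ ≤ (N₀ : ℝ) ^ k := pow_le_pow_left₀ (by linarith) h2 k
    have hA0 : A.Nonempty := Finset.card_pos.1 (by omega)
    have h4 : 1 ≤ ((Fintype.piFinset fun _ : Fin k => A).image fun f => ∏ i, f i).card :=
      Finset.card_pos.2 ((Fintype.piFinset_nonempty.2 fun _ => hA0).image _)
    have h5 : ((1 : ℝ) / N₀) ^ k * (N₀ : ℝ) ^ k = 1 := by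
      rw [← mul_pow, one_div, inv_mul_cancel₀ (by linarith), one_pow]
    calc ((1 : ℝ) / N₀) ^ k * (N : ℝ) ^ ((k : ℝ) - ε) ≤ ((1 : ℝ) / N₀) ^ k * (N₀ : ℝ) ^ k :=
          mul_le_mul_of_nonneg_left h3 (by positivity)
      _ = 1 := h5
      _ ≤ _ := by exact_mod_cast h4
  have main : ∀ k : ℕ, 1 ≤ k → ∀ ε : ℝ, 0 < ε → ∃ δ c : ℝ, 0 < δ ∧ 0 < c ∧
      ∀ (N r : ℕ) (t : Fin r → ℚ), 1 ≤ N → (∀ i, 0 < t i) →
      (r : ℝ) * Real.log (Real.log N) ≤ δ * Real.log N →
      (∀ A : Finset ℤ, A.card ≤ N → (∀ a ∈ A, Thin t N δ a) →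
        ∃ S T : Finset ℤ, S ∪ T = A ∧ Disjoint S T ∧
          (∀ B : Finset ℤ, B.Nonempty →
            c * ((S.card : ℝ) ^ k * (B.card : ℝ) ^ (1 - ε)) ≤ (N : ℝ) ^ ε *
              ((((Fintype.piFinset fun _ : Fin k => S).image fun f => ∑ i, f i) + B).card : ℝ)) ∧
          ∀ u : ℤ, c * (((Fintype.piFinset fun _ : Fin k => T).filter
            fun f => ∏ i, f i = u).card : ℝ) ≤ (N : ℝ) ^ ε) ∧
      (∀ A : Finset ℤ, N ≤ A.card → (N : ℝ) ^ (1 - δ) ≤ (A.filter fun a => Thin t N δ a).card →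
        c * (N : ℝ) ^ ((k : ℝ) - ε) ≤
          (((Fintype.piFinset fun _ : Fin k => A).image fun f => ∏ i, f i).card : ℝ) ∨
        ∀ B : Finset ℤ, B.Nonempty →
          c * ((N : ℝ) ^ ((k : ℝ) - ε) * (B.card : ℝ) ^ (1 - ε)) ≤
          ((((Fintype.piFinset fun _ : Fin k => A).image fun f => ∑ i, f i) + B).card : ℝ)) := by
    intro k hk ε hε
    obtain ⟨δ₁, hδ₁, h1⟩ := part1 k hk ε hε
    obtain ⟨δ₂, hδ₂, h2⟩ := part2 k hk ε hε
    have hδ : 0 < min δ₁ δ₂ := lt_min hδ₁ hδ₂
    have hc16 : ((1 : ℝ) / 16) ^ k ≤ 1 := pow_le_one₀ (by norm_num) (by norm_num)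
    refine ⟨min δ₁ δ₂, ((1 : ℝ) / 16) ^ k, hδ, by positivity, ?_⟩
    intro N r t hN ht hr
    have hN1 : (1 : ℝ) ≤ N := by exact_mod_cast hN
    have hNε : (1 : ℝ) ≤ (N : ℝ) ^ ε := Real.one_le_rpow hN1 hε.le
    rcases Nat.lt_or_ge N 16 with hlt | hge
    · refine ⟨fun A hA _ => ⟨∅, A, by simp, by simp, ?_, ?_⟩, fun A hA _ => Or.inl ?_⟩
      · intro B _
        simp only [Finset.card_empty, Nat.cast_zero]
        rw [zero_pow (by omega), zero_mul, mul_zero]
        positivity
      · intro u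
        have h3 : ((Fintype.piFinset fun _ : Fin k => A).filter
            fun f => ∏ i, f i = u).card ≤ 16 ^ k := by
          refine (Finset.card_le_card (Finset.filter_subset _ _)).trans ?_
          rw [Fintype.card_piFinset, Finset.prod_const, Finset.card_univ, Fintype.card_fin]
          exact Nat.pow_le_pow_left (by omega) k
        have h4 : ((((Fintype.piFinset fun _ : Fin k => A).filter
            fun f => ∏ i, f i = u).card : ℕ) : ℝ) ≤ 16 ^ k := by exact_mod_cast h3
        calc ((1 : ℝ) / 16) ^ k * (((Fintype.piFinset fun _ : Fin k => A).filter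
            fun f => ∏ i, f i = u).card : ℝ) ≤ ((1 : ℝ) / 16) ^ k * 16 ^ k :=
              mul_le_mul_of_nonneg_left h4 (by positivity)
          _ = 1 := by rw [← mul_pow]; norm_num
          _ ≤ (N : ℝ) ^ ε := hNε
      · have := small k ε 16 N A hε hN hlt.le hA
        exact_mod_cast this
    · refine ⟨fun A hA hth => ?_, fun A hA hth => ?_⟩
      · obtain ⟨S, hSA, ha, hb⟩ := h1 _ hδ (min_le_left _ _) N r t hge ht hr A hA hth
        refine ⟨S, A \ S, Finset.union_sdiff_of_subset hSA, Finset.disjoint_sdiff, ?_, ?_⟩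
        · intro B hB
          calc ((1 : ℝ) / 16) ^ k * ((S.card : ℝ) ^ k * (B.card : ℝ) ^ (1 - ε))
              ≤ 1 * ((S.card : ℝ) ^ k * (B.card : ℝ) ^ (1 - ε)) :=
                mul_le_mul_of_nonneg_right hc16 (by positivity)
            _ = (S.card : ℝ) ^ k * (B.card : ℝ) ^ (1 - ε) := one_mul _
            _ ≤ _ := hb B hB
        · intro u
          calc ((1 : ℝ) / 16) ^ k * (((Fintype.piFinset fun _ : Fin k => A \ S).filter
              fun f => ∏ i, f i = u).card : ℝ) ≤ ((1 : ℝ) / 16) ^ k * (2 ^ k * (N : ℝ) ^ ε) :=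
                mul_le_mul_of_nonneg_left (ha u) (by positivity)
            _ = ((1 : ℝ) / 8) ^ k * (N : ℝ) ^ ε := by
                rw [← mul_assoc, ← mul_pow]
                norm_num
            _ ≤ 1 * (N : ℝ) ^ ε :=
                mul_le_mul_of_nonneg_right (pow_le_one₀ (by norm_num) (by norm_num))
                  (by positivity)
            _ = (N : ℝ) ^ ε := one_mul _
      · have h16 : ((1 : ℝ) / 16) ^ k * 4 ^ k ≤ 1 := by
          rw [← mul_pow]
          exact pow_le_one₀ (by norm_num) (by norm_num)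
        rcases h2 _ hδ (min_le_right _ _) N r t hge ht hr A hA hth with h3 | h3
        · left
          calc ((1 : ℝ) / 16) ^ k * (N : ℝ) ^ ((k : ℝ) - ε) ≤ ((1 : ℝ) / 16) ^ k * (4 ^ k *
              (((Fintype.piFinset fun _ : Fin k => A).image fun f => ∏ i, f i).card : ℝ)) :=
                mul_le_mul_of_nonneg_left h3 (by positivity)
            _ = (((1 : ℝ) / 16) ^ k * 4 ^ k) *
              (((Fintype.piFinset fun _ : Fin k => A).image fun f => ∏ i, f i).card : ℝ) := by ring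
            _ ≤ 1 *
              (((Fintype.piFinset fun _ : Fin k => A).image fun f => ∏ i, f i).card : ℝ) :=
                mul_le_mul_of_nonneg_right h16 (Nat.cast_nonneg _)
            _ = _ := one_mul _
        · right
          intro B hB
          calc ((1 : ℝ) / 16) ^ k * ((N : ℝ) ^ ((k : ℝ) - ε) * (B.card : ℝ) ^ (1 - ε))
              ≤ ((1 : ℝ) / 16) ^ k * (4 ^ k * ((((Fintype.piFinset fun _ : Fin k => A).image
                fun f => ∑ i, f i) + B).card : ℝ)) :=
                mul_le_mul_of_nonneg_left (h3 B hB) (by positivity)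
            _ = (((1 : ℝ) / 16) ^ k * 4 ^ k) * ((((Fintype.piFinset fun _ : Fin k => A).image
                fun f => ∑ i, f i) + B).card : ℝ) := by ring
            _ ≤ 1 * ((((Fintype.piFinset fun _ : Fin k => A).image
                fun f => ∑ i, f i) + B).card : ℝ) :=
                mul_le_mul_of_nonneg_right h16 (Nat.cast_nonneg _)
            _ = _ := one_mul _
  refine ⟨main, ?_⟩
  intro k hk ε hε C hC
  obtain ⟨δ₁, c₁, hδ₁, hc₁, h1⟩ := main k hk ε hε
  obtain ⟨δ₂, hδ₂, N₀, h2⟩ := thin_of_height C hC δ₁ hδ₁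
  have hδ : 0 < min δ₁ δ₂ := lt_min hδ₁ hδ₂
  refine ⟨min δ₁ δ₂, min c₁ (((1 : ℝ) / ((N₀ + 3 : ℕ) : ℝ)) ^ k), hδ, lt_min hc₁ (by positivity), ?_⟩
  intro N r t hN ht hr A hA hcard
  have hN1 : (1 : ℝ) ≤ N := by exact_mod_cast hN
  rcases Nat.lt_or_ge N (N₀ + 3) with hlt | hge
  · left
    refine le_trans ?_ (small k ε (N₀ + 3) N A hε hN hlt.le hA)
    exact mul_le_mul_of_nonneg_right (min_le_right _ _) (by positivity)
  · have hlog : 0 ≤ Real.log N := Real.log_nonneg hN1
    have hr1 : (r : ℝ) * Real.log (Real.log N) ≤ δ₁ * Real.log N :=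
      hr.trans (mul_le_mul_of_nonneg_right (min_le_left _ _) hlog)
    have hr2 : (r : ℝ) * Real.log (Real.log N) ≤ δ₂ * Real.log N :=
      hr.trans (mul_le_mul_of_nonneg_right (min_le_right _ _) hlog)
    have h3 := (h1 N r t hN ht hr1).2 A hA (by
      calc (N : ℝ) ^ (1 - δ₁) ≤ (N : ℝ) ^ (1 - min δ₁ δ₂) :=
            Real.rpow_le_rpow_of_exponent_le hN1 (by linarith [min_le_left δ₁ δ₂])
        _ ≤ _ := hcard
        _ ≤ _ := by
          refine Nat.cast_le.2 (Finset.card_le_card fun a ha => ?_)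
          rw [Finset.mem_filter] at ha ⊢
          obtain ⟨haA, e, b, m, hb, hm, hbC, hmΩ, hab⟩ := ha
          exact ⟨haA, h2 N r t (by omega) hr2 a e b m hb hm hbC
            (hmΩ.trans (mul_le_mul_of_nonneg_right (min_le_right _ _) hlog)) hab⟩)
    rcases h3 with h3 | h3
    · left
      exact (mul_le_mul_of_nonneg_right (min_le_left _ _) (by positivity)).trans h3
    · right
      intro B hB
      exact (mul_le_mul_of_nonneg_right (min_le_left _ _) (by positivity)).trans (h3 B hB)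

end Pool.Agent.Results.MP_120218_co.HeightModuloGroup
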