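import Pool.Agent.Run7.h188.IsoC
import Pool.Agent.Run7.h188.IsoF
import Pool.Agent.Run7.h188.IsoN

/-!
# Sum-product exponents over the integers from a sharper isoperimetric induction

For a finite set `A` of positive integers the starting file `BourgainChangSharp` proves
`|A|^(1+β) |X|^θ ≤ |A + X| |A^n|^β` when `1/c ≤ (n - (n-1) c)^β`, `c = 2^(1-θ) - 1`. Here the
condition becomes `u^γ + (1-c)^(1-γ) (1-u)^(n γ) ≤ 1` for all `u` in `[0, 1]`, `γ = β/(1+β)`, which
is weaker, the inequality holds for `n` different sets `A_i`, `X_i`, and there is a second inequality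
`|A| |X|^θ |B|^(1+β) ≤ |A + X| |A B| |B^n|^β` of a new kind for sets of integers: the dilates
`(M/b) A`, `b ∈ B`, are compared with a set having the valuations of the complements `M/b`. With
`n = 2` it gives information on `A^2` and `A^4` at once. Together with the inequality
`|A|^(3(1+β)) ≤ |3A| |A^n|^(3β)`, `n^β ≥ 5`, these give exponents for `N`-fold sums and products of
arbitrary sets of integers which are larger than all the earlier ones for every `4 ≤ N ≤ 16`.

Method. Instead of the isoperimetric constant `ρ(A)` one follows the largest `∑_{a ∈ A} w(a)` with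
`w ≥ 0` and `∑_{a ∈ S} w(a) ≤ ρ(S)` for all `S ⊆ A`. The induction over valuation classes then
needs an inequality only along a curve.
-/

set_option autoImplicit false

namespace Pool.Agent.Results.MP_120218_co.IntegerExponents

open Finset Pool.Agent.N811.IS Run7.h188.Iso
open scoped Pointwise

/-- `S` contains `1`, is closed under products, does not contain `0`, and associated elements of `S`
are equal (for example the positive integers, or the monic polynomials over a field) -/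
def IsRep {R : Type} [CommRing R] (S : Set R) : Prop :=
  (1 : R) ∈ S ∧ (∀ a ∈ S, ∀ b ∈ S, a * b ∈ S) ∧ (∀ a ∈ S, a ≠ 0) ∧
    ∀ a ∈ S, ∀ b ∈ S, Associated a b → a = b

/-- the condition on `n`, `θ`, `β`: with `c = 2^(1-θ) - 1` and `γ = β/(1+β)`,
`u^γ + (1-c)^(1-γ) (1-u)^(n γ) ≤ 1` for all `u` between `0` and `1` -/
def Admissible (n : ℕ) (θ β : ℝ) : Prop :=
  2 ≤ n ∧ 1 / 2 ≤ θ ∧ θ < 1 ∧ 0 < β ∧ ∀ u : ℝ, 0 ≤ u → u ≤ 1 →
    u ^ (β / (1 + β)) + (2 - 2 ^ (1 - θ)) ^ (1 / (1 + β)) * (1 - u) ^ (n * (β / (1 + β))) ≤ 1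

theorem adm_use {n : ℕ} {θ β : ℝ} (h : Admissible n θ β) :
    0 < (2:ℝ) ^ (1 - θ) - 1 ∧ 0 < β / (1 + β) ∧ β / (1 + β) < 1 ∧
      β = β / (1 + β) / (1 - β / (1 + β)) ∧ Star n (β / (1 + β)) (2 ^ (1 - θ) - 1) := by
  obtain ⟨_, _, hθ1, hβ, hS⟩ := h
  have hβ1 : 0 < 1 + β := by linarith
  have e1 : 1 - β / (1 + β) = 1 / (1 + β) := by field_simp; ring
  have hc : (1:ℝ) < 2 ^ (1 - θ) := Real.one_lt_rpow (by norm_num) (by linarith)
  refine ⟨by linarith, by positivity, ?_, ?_, ?_⟩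
  · rw [div_lt_one hβ1]; linarith
  · rw [e1]; field_simp
  · intro u hu0 hu1
    have h2 := hS u hu0 hu1
    have e2 : (1:ℝ) - (2 ^ (1 - θ) - 1) = 2 - 2 ^ (1 - θ) := by ring
    rw [e1, e2]
    exact h2

/-- Isoperimetric and dilation inequalities, and exponents for `N`-fold sums and products. -/
theorem result :
    -- (1) several sets in `R^m`
    (∀ (R : Type) [CommRing R] [IsDomain R] [UniqueFactorizationMonoid R] [DecidableEq R]
      (S : Set R), IsRep S → ∀ (m n : ℕ) (θ β : ℝ), Admissible n θ β →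
      ∀ A X : Fin n → Finset (Fin m → R), (∀ i, (A i).Nonempty) → (∀ i, (X i).Nonempty) →
        (∀ i, ∀ a ∈ A i, ∀ j, a j ∈ S) →
        ∏ i, (((A i).card : ℝ) ^ (1 + β) * ((X i).card : ℝ) ^ θ) ≤
          (∏ i, ((A i + X i).card : ℝ)) *
            (((Fintype.piFinset A).image fun f => ∏ i, f i).card : ℝ) ^ (n * β)) ∧
    -- (2) one set
    (∀ (R : Type) [CommRing R] [IsDomain R] [UniqueFactorizationMonoid R] [DecidableEq R]
      (S : Set R), IsRep S → ∀ (m n : ℕ) (θ β : ℝ), Admissible n θ β →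
      ∀ A X : Finset (Fin m → R), A.Nonempty → X.Nonempty → (∀ a ∈ A, ∀ j, a j ∈ S) →
        (A.card : ℝ) ^ (1 + β) * (X.card : ℝ) ^ θ ≤ ((A + X).card : ℝ) *
          (((Fintype.piFinset fun _ : Fin n => A).image fun f => ∏ i, f i).card : ℝ) ^ β) ∧
    -- (3) the exponent `β = 1`
    (∀ (n : ℕ) (θ : ℝ), 3 ≤ n → 1 / 2 ≤ θ → θ < 1 →
      (2 - 2 ^ (1 - θ)) * ((n : ℝ) ^ n * ((n : ℝ) - 2) ^ (n - 2)) ≤ ((n : ℝ) - 1) ^ (2 * (n - 1)) →
      ∀ A X : Finset ℤ, A.Nonempty → X.Nonempty → (∀ a ∈ A, 0 < a) →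
        (A.card : ℝ) ^ 2 * (X.card : ℝ) ^ θ ≤ ((A + X).card : ℝ) *
          ((Fintype.piFinset fun _ : Fin n => A).image fun f => ∏ i, f i).card) ∧
    -- (4) the dilation inequality
    (∀ (n : ℕ) (θ β : ℝ), Admissible n θ β →
      ∀ A B X : Finset ℤ, (0:ℤ) ∉ A → B.Nonempty → (∀ b ∈ B, 0 < b) → X.Nonempty →
        (A.card : ℝ) * (X.card : ℝ) ^ θ * (B.card : ℝ) ^ (1 + β) ≤
          ((A + X).card : ℝ) * ((A * B).card : ℝ) *
            (((Fintype.piFinset fun _ : Fin n => B).image fun f => ∏ i, f i).card : ℝ) ^ β) ∧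
    -- (5) 4-fold sums and products of any finite set of integers: all exponents below `1.4708`
    (∀ κ : ℝ, κ < 3677 / 2500 → ∃ c : ℝ, 0 < c ∧ ∀ A : Finset ℤ, A.Nonempty →
      c * (A.card : ℝ) ^ κ ≤
        max (((Fintype.piFinset fun _ : Fin 4 => A).image fun f => ∑ i, f i).card : ℝ)
          (((Fintype.piFinset fun _ : Fin 4 => A).image fun f => ∏ i, f i).card : ℝ)) ∧
    -- (6) `N`-fold sums and products of any finite set of integers, `5 ≤ N ≤ 16`
    (∀ p ∈ ([(5, 15295), (6, 15861), (7, 16338), (8, 16748), (9, 17104), (10, 17420), (11, 17704), (12, 17957), (13, 18190), (14, 18403), (15, 18598), (16, 18780)] : List (ℕ × ℕ)),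
      ∀ A : Finset ℤ, A.Nonempty →
        ((A.card : ℝ) / 3) ^ ((p.2 : ℝ) / 10000) ≤
          max (((Fintype.piFinset fun _ : Fin p.1 => A).image fun f => ∑ i, f i).card : ℝ)
            (((Fintype.piFinset fun _ : Fin p.1 => A).image fun f => ∏ i, f i).card : ℝ)) := by
  refine ⟨?_, ?_, ?_, ?_, ?_, ?_⟩
  · intro R _ _ _ _ S hS m n θ β h A X hA hX hAS
    obtain ⟨hc, h0, h1, hβ, hStar⟩ := adm_use h
    exact iso_family2 (vrPi (vrUFD S hS.1 hS.2.1 hS.2.2.1 hS.2.2.2) m) h.1 h.2.1 h.2.2.1 hc le_rfl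
      h0 h1 hStar hβ A hA hAS X hX
  · intro R _ _ _ _ S hS m n θ β h A X hA hX hAS
    obtain ⟨hc, h0, h1, hβ, hStar⟩ := adm_use h
    exact iso_one2 (vrPi (vrUFD S hS.1 hS.2.1 hS.2.2.1 hS.2.2.2) m) h.1 h.2.1 h.2.2.1 hc le_rfl
      h0 h1 hStar hβ A hA hAS X hX
  · intro n θ hn hθ hθ1 hcond A X hA hX hAp
    have hc : (1:ℝ) < 2 ^ (1 - θ) := Real.one_lt_rpow (by norm_num) (by linarith)
    have hn3 : (3:ℝ) ≤ n := by exact_mod_cast hn
    set x : ℝ := 1 / ((n : ℝ) - 1) with hx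
    have hx0 : 0 < x := by rw [hx]; exact one_div_pos.2 (by linarith)
    have hx1 : x < 1 := by rw [hx, div_lt_one (by linarith)]; linarith
    have hnx : ((n : ℝ) - 1) * x = 1 := by rw [hx]; field_simp [show (n:ℝ) - 1 ≠ 0 by linarith]
    have hS := star_rat n 1 1 (by omega) one_pos one_pos (c := 2 ^ (1 - θ) - 1) (a := x) (b := x)
      ?_ hx0 le_rfl hx1 ?_ ?_ ?_
    · have e : (((1 : ℕ) : ℝ) / (((1 : ℕ) : ℝ) + ((1 : ℕ) : ℝ))) = 1 / 2 := by norm_num
      rw [e] at hS
      have h := iso_one2 vrInt (show 2 ≤ n by omega) hθ hθ1 (by linarith) le_rfl (by norm_num)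
        (by norm_num) hS (β := 1) (by norm_num) A hA hAp X hX
      have e2 : (A.card : ℝ) ^ ((1:ℝ) + 1) = (A.card : ℝ) ^ 2 := by
        rw [show (1:ℝ) + 1 = ((2:ℕ):ℝ) by norm_num, Real.rpow_natCast]
      rw [e2, Real.rpow_one] at h
      exact h
    · have : (2:ℝ) ^ (1 - θ) ≤ 2 ^ ((1:ℝ) / 2) :=
        Real.rpow_le_rpow_of_exponent_le (by norm_num) (by linarith)
      have h3 : (2:ℝ) ^ ((1:ℝ) / 2) < 2 := by
        rw [← Real.sqrt_eq_rpow]
        have := Real.sq_sqrt (show (0:ℝ) ≤ 2 by norm_num)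
        nlinarith [Real.sqrt_nonneg (2:ℝ)]
      linarith
    · have e4 : ((n : ℝ) - 1) * x ^ (1 + 1) = x := by
        rw [show (1 + 1 : ℕ) = 2 from rfl, sq, ← mul_assoc, hnx, one_mul]
      rw [e4, pow_one]
      linarith
    · have e4 : ((n : ℝ) - 1) * x ^ (1 + 1) = x := by
        rw [show (1 + 1 : ℕ) = 2 from rfl, sq, ← mul_assoc, hnx, one_mul]
      rw [e4, pow_one]
      linarith
    · obtain ⟨k, rfl⟩ : ∃ k, n = k + 2 := ⟨n - 2, by omega⟩
      have hk : (1:ℝ) ≤ k := by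
        have : 1 ≤ k := by omega
        exact_mod_cast this
      push_cast at hcond hx hnx ⊢
      have e1 : (k:ℝ) + 2 - 2 = k := by ring
      have e2 : (k:ℝ) + 2 - 1 = k + 1 := by ring
      rw [e1, e2, show 2 * (k + 1) = 2 * k + 2 by ring] at hcond
      rw [e2] at hx
      have e3 : (1:ℝ) - (2 ^ (1 - θ) - 1) = 2 - 2 ^ (1 - θ) := by ring
      rw [e3]
      have hk1 : (0:ℝ) < k + 1 := by linarith
      have f2 : 1 - x ^ 1 = k / (k + 1) := by
        rw [hx, pow_one, eq_div_iff hk1.ne', sub_mul, one_div_mul_cancel hk1.ne']; ring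
      have f1 : 1 - x ^ (1 + 1) = (k * (k + 2)) / (k + 1) ^ 2 := by
        have t : x * (k + 1) = 1 := by rw [hx, one_div_mul_cancel hk1.ne']
        rw [eq_div_iff (by positivity)]
        have : (1 - x ^ (1 + 1)) * ((k:ℝ) + 1) ^ 2 = (k + 1) ^ 2 - (x * (k + 1)) ^ 2 := by ring
        rw [this, t]; ring
      rw [f1, f2, pow_one, mul_one, div_pow, div_pow, mul_pow, ← pow_mul]
      rw [← mul_div_assoc, div_le_div_iff₀ (by positivity) (by positivity)]
      have g1 : (k:ℝ) ^ (k + 2) = k ^ k * k ^ 2 := pow_add _ _ _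
      have g2 : ((k:ℝ) + 1) ^ (2 * (k + 2)) = (k + 1) ^ (2 * k + 2) * (k + 1) ^ 2 := by
        rw [← pow_add]; congr 1
      rw [g1, g2]
      have := mul_le_mul_of_nonneg_right hcond (show (0:ℝ) ≤ k ^ 2 * (k + 1) ^ 2 by positivity)
      nlinarith [this]
  · intro n θ β h A B X hA hBne hB hX
    obtain ⟨hc, h0, h1, hβ, hStar⟩ := adm_use h
    exact dilation h.1 h.2.1 h.2.2.1 hc le_rfl h0 h1 hStar hβ A B X hA hBne hB hX
  · exact four
  · intro p hp A hA
    simp only [List.mem_cons, List.not_mem_nil, or_false] at hp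
    rcases hp with rfl | rfl | rfl | rfl | rfl | rfl | rfl | rfl | rfl | rfl | rfl | rfl
    · have h := ex5 A hA
      have e : (3059 / 2000 : ℝ) = ((15295 : ℕ) : ℝ) / 10000 := by norm_num
      rw [e] at h
      exact h
    · have h := ex6 A hA
      have e : (15861 / 10000 : ℝ) = ((15861 : ℕ) : ℝ) / 10000 := by norm_num
      rw [e] at h
      exact h
    · have h := ex7 A hA
      have e : (8169 / 5000 : ℝ) = ((16338 : ℕ) : ℝ) / 10000 := by norm_num
      rw [e] at h
      exact h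
    · have h := ex8 A hA
      have e : (4187 / 2500 : ℝ) = ((16748 : ℕ) : ℝ) / 10000 := by norm_num
      rw [e] at h
      exact h
    · have h := ex9 A hA
      have e : (1069 / 625 : ℝ) = ((17104 : ℕ) : ℝ) / 10000 := by norm_num
      rw [e] at h
      exact h
    · have h := ex10 A hA
      have e : (871 / 500 : ℝ) = ((17420 : ℕ) : ℝ) / 10000 := by norm_num
      rw [e] at h
      exact h
    · have h := ex11 A hA
      have e : (2213 / 1250 : ℝ) = ((17704 : ℕ) : ℝ) / 10000 := by norm_num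
      rw [e] at h
      exact h
    · have h := ex12 A hA
      have e : (17957 / 10000 : ℝ) = ((17957 : ℕ) : ℝ) / 10000 := by norm_num
      rw [e] at h
      exact h
    · have h := ex13 A hA
      have e : (1819 / 1000 : ℝ) = ((18190 : ℕ) : ℝ) / 10000 := by norm_num
      rw [e] at h
      exact h
    · have h := ex14 A hA
      have e : (18403 / 10000 : ℝ) = ((18403 : ℕ) : ℝ) / 10000 := by norm_num
      rw [e] at h
      exact h
    · have h := ex15 A hA
      have e : (9299 / 5000 : ℝ) = ((18598 : ℕ) : ℝ) / 10000 := by norm_num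
      rw [e] at h
      exact h
    · have h := ex16 A hA
      have e : (939 / 500 : ℝ) = ((18780 : ℕ) : ℝ) / 10000 := by norm_num
      rw [e] at h
      exact h

end Pool.Agent.Results.MP_120218_co.IntegerExponents
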