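import Pool.Agent.Run7.h386.PW.Hyper

/-!
# Sums along dense hypergraphs in the sets `X · {∏ s : s ⊆ P}`, `X` arbitrary

For `i = 1, …, k` let `X_i` be ANY finite set of integers and `P_i` any finite set of pairwise coprime
integers `≥ 2` with `|X_i| ≤ 2 ^ (T |P_i|)`, and let `B` be ANY finite set of integers. Let
`N = |B| ∏ |X_i| 2 ^ |P_i|` be the number of the formal tuples `(x_1 ∏ s_1, …, x_k ∏ s_k, b)` with
`x_i ∈ X_i`, `s_i ⊆ P_i`, `b ∈ B`. For every nonempty set `H` of tuples of this form the sums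
`l_1 a_1 + … + l_k a_k + b`, `(a, b) ∈ H`, take at least `c N ^ (1 - ε) (|H| / N) ^ C` values, where `C`
and `c > 0` depend only on `T`, `k` and `ε`. So if `A` contains `V ^ (1 - η)` of the `V = |X| 2 ^ |P|`
products, then for every `k`-partite hypergraph `H` with at least `|A| ^ (k - η)` edges on `A` the
number of the sums along `H` is at least `c |A| ^ (k - ε)`. Neither the sums nor the products of the
elements of `X` need be numerous.

The proof. Planar energy theorem (`PW`): let `W` be ANY finite set of points of `ℤ × ℤ` and `P` a set of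
pairwise coprime integers with `θ log |W| ≤ |P|`. For a small `α = α(δ, θ) > 0` the mean over `s ⊆ P` of
`∑ r_s(z) ^ (1 + α)`, where `r_s(z)` is the number of the points `(x, y)` of `W` with
`(∏ s) x + y = z`, is at most `C |W| ^ (1 + α δ)`. It is proved by induction on `|P|` with `q`-adic levels
of both coordinates. The theorem is applied to the product of `X · {∏ s : s ⊆ P \ P'}` and of a set which
encodes the other coordinates; the multipliers are the products of the subsets of a small part `P'`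
of `P`. The coordinates are added one by one.
-/

set_option autoImplicit false

open Finset

namespace Pool.Agent.Results.MP_120218_co.SumsAlongHypergraphs

/-- Let `X_i` be finite sets of integers, `P_i` finite sets of pairwise coprime integers `≥ 2`,
`|X_i| ≤ 2 ^ (T |P_i|)`, `l_i` nonzero integers, `B` a finite set of integers. Let `H` be a nonempty
finite set of tuples `(a_1, …, a_k, b)` with `a_i = x ∏ s`, `x ∈ X_i`, `s ⊆ P_i`, and `b ∈ B`. Then the
number of the values of `l_1 a_1 + … + l_k a_k + b` on `H` is at least `c N ^ (1 - ε) (|H| / N) ^ C`,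
`N = |B| ∏ |X_i| 2 ^ |P_i|`, where `C` and `c > 0` depend only on `T`, `k` and `ε`. -/
theorem result (T : ℝ) (k : ℕ) (ε : ℝ) (hT : 0 ≤ T) (hε : 0 < ε) :
    ∃ C c : ℝ, 0 < C ∧ 0 < c ∧
      ∀ (X : Fin k → Finset ℤ) (P : Fin k → Finset ℕ) (l : Fin k → ℤ) (B : Finset ℤ)
        (H : Finset ((Fin k → ℤ) × ℤ)),
        (∀ i, ∀ p ∈ P i, 2 ≤ p) →
        (∀ i, ∀ p ∈ P i, ∀ q ∈ P i, p ≠ q → Nat.Coprime p q) →
        (∀ i, ((X i).card : ℝ) ≤ 2 ^ (T * (P i).card)) →
        (∀ i, l i ≠ 0) → H.Nonempty →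
        (∀ h ∈ H, (∀ i, ∃ x ∈ X i, ∃ s ⊆ P i, h.1 i = x * ∏ p ∈ s, (p : ℤ)) ∧ h.2 ∈ B) →
        c * ((B.card : ℝ) * ∏ i, ((X i).card : ℝ) * 2 ^ (P i).card) ^ (1 - ε) *
            (H.card / ((B.card : ℝ) * ∏ i, ((X i).card : ℝ) * 2 ^ (P i).card)) ^ C ≤
          ((H.image fun h => (∑ i, l i * h.1 i) + h.2).card : ℝ) := by
  classical
  obtain ⟨C, c, hC, hc, h⟩ := Pool.Agent.Run7.h386.PW.hyper T hT k (min ε 1)
    (lt_min hε one_pos) (min_le_right _ _)
  refine ⟨C, c, by linarith, hc, ?_⟩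
  intro X P l B H hP2 hPc hXP hl hH hHh
  obtain ⟨N, hN⟩ : ∃ N : ℝ, N = (B.card : ℝ) * ∏ i, ((X i).card : ℝ) * 2 ^ (P i).card := ⟨_, rfl⟩
  have hmem : ∀ h ∈ H, (∀ i, h.1 i ∈ Pool.Agent.Run7.h386.PW.hst (X i) (P i)) ∧ h.2 ∈ B := by
    intro g hg
    refine ⟨fun i => ?_, (hHh g hg).2⟩
    obtain ⟨x, hx, s, hs, e⟩ := (hHh g hg).1 i
    refine Pool.Agent.Run7.h386.PW.mem_hst.2 ⟨x, hx, s, hs, ?_⟩
    rw [e, Nat.cast_prod, mul_comm]
  have h1 := h X P l hP2 hPc hXP hl B H hH hmem N hN.symm.le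
  rw [← hN]
  refine le_trans ?_ h1
  obtain ⟨g₀, hg₀⟩ := hH
  have hB1 : (1 : ℝ) ≤ B.card := by
    exact_mod_cast Finset.card_pos.2 ⟨_, (hHh g₀ hg₀).2⟩
  have hfac : ∀ i, (1 : ℝ) ≤ ((X i).card : ℝ) * 2 ^ (P i).card := by
    intro i
    obtain ⟨x, hx, _⟩ := (hHh g₀ hg₀).1 i
    have h2 : (1 : ℝ) ≤ (X i).card := by exact_mod_cast Finset.card_pos.2 ⟨x, hx⟩
    have h3 : (1 : ℝ) ≤ 2 ^ (P i).card := one_le_pow₀ one_le_two
    exact one_le_mul_of_one_le_of_one_le h2 h3
  have hprod : (1 : ℝ) ≤ ∏ i, ((X i).card : ℝ) * 2 ^ (P i).card := by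
    calc (1 : ℝ) = ∏ _i : Fin k, (1 : ℝ) := by rw [Finset.prod_const_one]
      _ ≤ _ := Finset.prod_le_prod (fun i _ => zero_le_one) fun i _ => hfac i
  have hN1 : 1 ≤ N := by
    rw [hN]
    exact one_le_mul_of_one_le_of_one_le hB1 hprod
  have h2 : N ^ (1 - ε) ≤ N ^ (1 - min ε 1) :=
    Real.rpow_le_rpow_of_exponent_le hN1 (by linarith [min_le_left ε 1])
  have h3 : (0 : ℝ) ≤ ((H.card : ℝ) / N) ^ C :=
    Real.rpow_nonneg (div_nonneg (Nat.cast_nonneg _) (by linarith)) _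
  exact mul_le_mul_of_nonneg_right (mul_le_mul_of_nonneg_left h2 hc.le) h3

end Pool.Agent.Results.MP_120218_co.SumsAlongHypergraphs
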